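import Mathlib

/-!
# EVAR (helper15), deterministic inequalities (0), (1), (2)  (helper42)

`Ef f S = Σ f_b² - Σ f_b f_c |S_bc|²`: energy of the function with values `f` on the channels and `0` at the
remaining open channels, if the full scattering matrix is unitary.
-/

set_option autoImplicit false

open Matrix Complex Finset
open scoped BigOperators

namespace Pool.TRP.EV

variable {B : Type} [Fintype B] [DecidableEq B]

/-- energy -/
noncomputable def Ef (f : B → ℝ) (S : Matrix B B ℂ) : ℝ :=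
  ∑ b, f b ^ 2 - ∑ b, ∑ c, f b * f c * ‖S b c‖ ^ 2

/-- contraction -/
def Ctr (S : Matrix B B ℂ) : Prop :=
  ∀ u : B → ℂ, ∑ b, ‖∑ c, S b c * u c‖ ^ 2 ≤ ∑ b, ‖u b‖ ^ 2

/-- the weighted norm of an amplitude -/
noncomputable def Nf (f : B → ℝ) (a : B → ℂ) : ℝ := √(∑ b, f b ^ 2 * ‖a b‖ ^ 2)

lemma Nf_nonneg (f : B → ℝ) (a : B → ℂ) : 0 ≤ Nf f a := Real.sqrt_nonneg _

lemma Nf_smul (f : B → ℝ) (k : ℂ) (a : B → ℂ) : Nf f (fun b => k * a b) = ‖k‖ * Nf f a := by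
  unfold Nf
  have : ∑ b, f b ^ 2 * ‖k * a b‖ ^ 2 = ‖k‖ ^ 2 * ∑ b, f b ^ 2 * ‖a b‖ ^ 2 := by
    rw [mul_sum]; refine sum_congr rfl fun b _ => ?_
    rw [norm_mul]; ring
  rw [this, Real.sqrt_mul (sq_nonneg _), Real.sqrt_sq (norm_nonneg _)]

/-- Cauchy-Schwarz -/
lemma cs (u v : B → ℂ) : ‖∑ b, u b * v b‖ ≤ √(∑ b, ‖u b‖ ^ 2) * √(∑ b, ‖v b‖ ^ 2) := by
  calc ‖∑ b, u b * v b‖ ≤ ∑ b, ‖u b‖ * ‖v b‖ := by
        refine (norm_sum_le _ _).trans (le_of_eq ?_)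
        exact sum_congr rfl fun b _ => norm_mul _ _
    _ ≤ √(∑ b, ‖u b‖ ^ 2) * √(∑ b, ‖v b‖ ^ 2) := Real.sum_mul_le_sqrt_mul_sqrt _ _ _

lemma form_le (f : B → ℝ) (S : Matrix B B ℂ) (hS : Ctr S) (a c : B → ℂ) :
    ‖∑ x, ∑ y, (f x * a x) * (f y * c y) * (starRingEnd ℂ) (S x y)‖ ≤ Nf f a * Nf f c := by
  have e : ∑ x, ∑ y, ((f x : ℂ) * a x) * ((f y : ℂ) * c y) * (starRingEnd ℂ) (S x y) =
      ∑ x, ((f x : ℂ) * a x) * (starRingEnd ℂ) (∑ y, S x y * (starRingEnd ℂ) ((f y : ℂ) * c y)) := by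
    refine sum_congr rfl fun x _ => ?_
    rw [map_sum, mul_sum]
    refine sum_congr rfl fun y _ => ?_
    rw [map_mul, Complex.conj_conj]; ring
  rw [e]
  refine (cs _ _).trans ?_
  refine mul_le_mul ?_ ?_ (Real.sqrt_nonneg _) (Nf_nonneg _ _)
  · apply Real.sqrt_le_sqrt
    refine le_of_eq (sum_congr rfl fun b _ => ?_)
    rw [norm_mul, mul_pow, Complex.norm_real, Real.norm_eq_abs, sq_abs]
  · apply Real.sqrt_le_sqrt
    calc ∑ x, ‖(starRingEnd ℂ) (∑ y, S x y * (starRingEnd ℂ) ((f y : ℂ) * c y))‖ ^ 2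
        = ∑ x, ‖∑ y, S x y * (starRingEnd ℂ) ((f y : ℂ) * c y)‖ ^ 2 :=
          sum_congr rfl fun x _ => by rw [RCLike.norm_conj]
      _ ≤ ∑ y, ‖(starRingEnd ℂ) ((f y : ℂ) * c y)‖ ^ 2 := hS _
      _ = ∑ b, f b ^ 2 * ‖c b‖ ^ 2 := by
          refine sum_congr rfl fun b _ => ?_
          rw [RCLike.norm_conj, norm_mul, mul_pow, Complex.norm_real, Real.norm_eq_abs, sq_abs]

lemma normsq_diff (s t : ℂ) :
    ‖s‖ ^ 2 - ‖t‖ ^ 2 = ((s - t) * (starRingEnd ℂ) (s + t)).re := by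
  rw [← Complex.normSq_eq_norm_sq, ← Complex.normSq_eq_norm_sq, Complex.normSq_apply,
    Complex.normSq_apply]
  simp only [Complex.mul_re, Complex.sub_re, Complex.sub_im, Complex.conj_re, Complex.conj_im,
    Complex.add_re, Complex.add_im]
  ring

/-- (0): linear in each amplitude -/
theorem Ef_diff {I : Type} [Fintype I] (f : B → ℝ) (S S' : Matrix B B ℂ) (hS : Ctr S)
    (hS' : Ctr S') (α β : I → B → ℂ) (h : ∀ b c, S b c - S' b c = ∑ i, α i b * β i c) :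
    |Ef f S - Ef f S'| ≤ 2 * ∑ i, Nf f (α i) * Nf f (β i) := by
  have e1 : Ef f S - Ef f S' =
      -(∑ i, ((∑ x, ∑ y, (f x * α i x) * (f y * β i y) * (starRingEnd ℂ) (S x y)) +
        ∑ x, ∑ y, (f x * α i x) * (f y * β i y) * (starRingEnd ℂ) (S' x y))).re := by
    have e2 : (∑ i, ((∑ x, ∑ y, ((f x : ℂ) * α i x) * ((f y : ℂ) * β i y) * (starRingEnd ℂ) (S x y)) +
        ∑ x, ∑ y, ((f x : ℂ) * α i x) * ((f y : ℂ) * β i y) * (starRingEnd ℂ) (S' x y))) =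
        ∑ x, ∑ y, ((f x * f y : ℝ) : ℂ) * ((S x y - S' x y) * (starRingEnd ℂ) (S x y + S' x y)) := by
      simp_rw [← sum_add_distrib]
      rw [sum_comm]
      refine sum_congr rfl fun x _ => ?_
      rw [sum_comm]
      refine sum_congr rfl fun y _ => ?_
      rw [h x y, map_add, sum_mul, mul_sum]
      refine sum_congr rfl fun i _ => ?_
      push_cast; ring
    rw [e2]
    unfold Ef
    rw [Complex.re_sum]
    simp_rw [Complex.re_sum, Complex.re_ofReal_mul, ← normsq_diff, mul_sub, sum_sub_distrib]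
    ring
  rw [e1, abs_neg]
  refine (Complex.abs_re_le_norm _).trans ?_
  refine (norm_sum_le _ _).trans ?_
  rw [mul_sum]
  refine sum_le_sum fun i _ => ?_
  refine (norm_add_le _ _).trans ?_
  have a := form_le f S hS (α i) (β i)
  have b := form_le f S' hS' (α i) (β i)
  linarith

section resolvent

variable {ι : Type} [Fintype ι] [DecidableEq ι]

/-- scattering matrix `1 + κ h Mᵀ⁻¹ h` -/
noncomputable def Sc (κ : ℂ) (h : B → ι → ℂ) (M : Matrix ι ι ℂ) : Matrix B B ℂ :=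
  Matrix.of fun b c => (if b = c then 1 else 0) + κ * (h b ⬝ᵥ (M⁻¹ *ᵥ h c))

/-- the amplitude `b ↦ h_b . M⁻¹ p` -/
noncomputable def am (h : B → ι → ℂ) (M : Matrix ι ι ℂ) (p : ι → ℂ) : B → ℂ :=
  fun b => h b ⬝ᵥ (M⁻¹ *ᵥ p)

lemma inv_diff (M M' : Matrix ι ι ℂ) (hM : IsUnit M.det) (hM' : IsUnit M'.det) :
    M⁻¹ - M'⁻¹ = M⁻¹ * (M' - M) * M'⁻¹ := by
  rw [Matrix.mul_sub, Matrix.sub_mul, Matrix.nonsing_inv_mul _ hM, Matrix.one_mul,
    Matrix.mul_assoc, Matrix.mul_nonsing_inv _ hM', Matrix.mul_one]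

lemma am_symm (h : B → ι → ℂ) (M : Matrix ι ι ℂ) (hs : M.IsSymm) (p : ι → ℂ) (c : B) :
    p ⬝ᵥ (M⁻¹ *ᵥ h c) = am h M p c := by
  have hs' : (M⁻¹)ᵀ = M⁻¹ := by rw [Matrix.transpose_nonsing_inv, hs]
  unfold am
  rw [Matrix.dotProduct_mulVec, ← Matrix.mulVec_transpose, hs', dotProduct_comm]

/-- difference of two scattering matrices if the difference of the matrices has the form `Σ λ p qᵀ` -/
lemma Sc_diff {I : Type} [Fintype I] (κ : ℂ) (h : B → ι → ℂ) (M M' : Matrix ι ι ℂ)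
    (hM : IsUnit M.det) (hM' : IsUnit M'.det) (hs : M'.IsSymm) (lam : I → ℂ) (p q : I → ι → ℂ)
    (hd : ∀ x y, M' x y - M x y = ∑ i, lam i * p i x * q i y) (b c : B) :
    Sc κ h M b c - Sc κ h M' b c = ∑ i, (κ * lam i * am h M (p i) b) * am h M' (q i) c := by
  have e0 : M' - M = ∑ i, lam i • Matrix.vecMulVec (p i) (q i) := by
    ext x y
    rw [Matrix.sub_apply, hd, Matrix.sum_apply]
    refine sum_congr rfl fun i _ => ?_
    rw [Matrix.smul_apply, Matrix.vecMulVec_apply, smul_eq_mul]; ring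
  have e1 : Sc κ h M b c - Sc κ h M' b c = κ * (h b ⬝ᵥ ((M⁻¹ - M'⁻¹) *ᵥ h c)) := by
    simp only [Sc, Matrix.of_apply, Matrix.sub_mulVec, dotProduct_sub]; ring
  rw [e1, inv_diff M M' hM hM', e0, Matrix.mul_sum, Matrix.sum_mul, Matrix.sum_mulVec,
    dotProduct_sum, mul_sum]
  refine sum_congr rfl fun i _ => ?_
  have e2 : (M⁻¹ * (lam i • Matrix.vecMulVec (p i) (q i)) * M'⁻¹) *ᵥ h c =
      (lam i * am h M' (q i) c) • (M⁻¹ *ᵥ (p i)) := by
    rw [← am_symm h M' hs]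
    rw [Matrix.mul_smul, Matrix.smul_mul, Matrix.smul_mulVec, ← Matrix.mulVec_mulVec,
      ← Matrix.mulVec_mulVec, Matrix.vecMulVec_mulVec]
    have e3 : (MulOpposite.op (q i ⬝ᵥ M'⁻¹ *ᵥ h c) • p i : ι → ℂ) =
        (q i ⬝ᵥ M'⁻¹ *ᵥ h c) • p i := by
      ext x; simp [mul_comm]
    rw [e3, Matrix.mulVec_smul, smul_smul]
  rw [e2, dotProduct_smul, smul_eq_mul]
  unfold am
  ring

/-- (0) for scattering matrices -/
theorem Ef_Sc {I : Type} [Fintype I] (κ : ℂ) (f : B → ℝ) (h : B → ι → ℂ) (M M' : Matrix ι ι ℂ)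
    (hM : IsUnit M.det) (hM' : IsUnit M'.det) (hs : M'.IsSymm) (hc : Ctr (Sc κ h M))
    (hc' : Ctr (Sc κ h M')) (lam : I → ℂ) (p q : I → ι → ℂ)
    (hd : ∀ x y, M' x y - M x y = ∑ i, lam i * p i x * q i y) :
    |Ef f (Sc κ h M) - Ef f (Sc κ h M')| ≤
      2 * ‖κ‖ * ∑ i, ‖lam i‖ * (Nf f (am h M (p i)) * Nf f (am h M' (q i))) := by
  refine (Ef_diff f _ _ hc hc' (fun i b => κ * lam i * am h M (p i) b)
    (fun i => am h M' (q i)) (Sc_diff κ h M M' hM hM' hs lam p q hd)).trans (le_of_eq ?_)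
  have e : ∀ i, Nf f (fun b => κ * lam i * am h M (p i) b) * Nf f (am h M' (q i)) =
      ‖κ‖ * (‖lam i‖ * (Nf f (am h M (p i)) * Nf f (am h M' (q i)))) := by
    intro i
    rw [Nf_smul, norm_mul]; ring
  simp_rw [e]
  rw [← mul_sum, mul_assoc]

end resolvent

end Pool.TRP.EV
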