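import Mathlib

/-!
# EVAR (helper15): one-variable integrals (helper42)
-/

set_option autoImplicit false

open MeasureTheory Complex
open scoped ENNReal

namespace Pool.TRP.EV

lemma normSq_sub (v : ℝ) (s : ℂ) : ‖(v : ℂ) - s‖ ^ 2 = (v - s.re) ^ 2 + s.im ^ 2 := by
  rw [← Complex.normSq_eq_norm_sq, Complex.normSq_apply]; simp; ring

lemma meas_norm (s : ℂ) : Measurable fun v : ℝ => ‖(v : ℂ) - s‖ := by fun_prop

/-- `∫ dv / |v - σ|² = π / Im σ` -/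
theorem lint_sq (s : ℂ) (hs : 0 < s.im) :
    ∫⁻ v : ℝ, ENNReal.ofReal (1 / ‖(v : ℂ) - s‖ ^ 2) = ENNReal.ofReal (Real.pi / s.im) := by
  obtain ⟨g, hg⟩ : ∃ g : NNReal, (g : ℝ) = s.im := ⟨s.im.toNNReal, Real.coe_toNNReal _ hs.le⟩
  have hg0 : g ≠ 0 := by
    intro h; rw [h] at hg; simp at hg; exact hs.ne hg
  have h1 := ProbabilityTheory.lintegral_cauchyPDF_eq_one s.re hg0
  have h2 : ∀ v : ℝ, ENNReal.ofReal (1 / ‖(v : ℂ) - s‖ ^ 2) = ENNReal.ofReal (Real.pi / s.im) *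
      ProbabilityTheory.cauchyPDF s.re g v := by
    intro v
    rw [ProbabilityTheory.cauchyPDF, ProbabilityTheory.cauchyPDFReal_def,
      ← ENNReal.ofReal_mul (by positivity), normSq_sub, hg]
    congr 1
    have h3 : (v - s.re) ^ 2 + s.im ^ 2 ≠ 0 := by positivity
    have h4 : Real.pi ≠ 0 := Real.pi_ne_zero
    have h5 : s.im ≠ 0 := hs.ne'
    field_simp
  simp_rw [h2]
  rw [lintegral_const_mul _ (ProbabilityTheory.measurable_cauchyPDF _ _), h1, mul_one]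

/-- `∫ dv / (|v - σ| |v - σ'|) ≤ π / √(Im σ Im σ')` -/
theorem lint_two (s t : ℂ) (hs : 0 < s.im) (ht : 0 < t.im) :
    ∫⁻ v : ℝ, ENNReal.ofReal (1 / (‖(v : ℂ) - s‖ * ‖(v : ℂ) - t‖)) ≤
      ENNReal.ofReal (Real.pi / √(s.im * t.im)) := by
  have ms : Measurable fun v : ℝ => ENNReal.ofReal (1 / ‖(v : ℂ) - s‖) := by fun_prop
  have mt : Measurable fun v : ℝ => ENNReal.ofReal (1 / ‖(v : ℂ) - t‖) := by fun_prop
  have h := ENNReal.lintegral_mul_le_Lp_mul_Lq volume (p := 2) (q := 2)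
    (Real.HolderConjugate.two_two) ms.aemeasurable mt.aemeasurable
  have e1 : ∀ v : ℝ, ENNReal.ofReal (1 / (‖(v : ℂ) - s‖ * ‖(v : ℂ) - t‖)) =
      ((fun v : ℝ => ENNReal.ofReal (1 / ‖(v : ℂ) - s‖)) *
        fun v : ℝ => ENNReal.ofReal (1 / ‖(v : ℂ) - t‖)) v := by
    intro v
    simp only [Pi.mul_apply]
    rw [← ENNReal.ofReal_mul (by positivity)]
    congr 1; rw [one_div_mul_one_div]
  have e2 : ∀ (a : ℂ), 0 < a.im → (∫⁻ v : ℝ, ENNReal.ofReal (1 / ‖(v : ℂ) - a‖) ^ (2 : ℝ)) ^ (1 / (2 : ℝ)) =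
      ENNReal.ofReal (√(Real.pi / a.im)) := by
    intro a ha
    have : ∀ v : ℝ, ENNReal.ofReal (1 / ‖(v : ℂ) - a‖) ^ (2 : ℝ) =
        ENNReal.ofReal (1 / ‖(v : ℂ) - a‖ ^ 2) := by
      intro v
      rw [ENNReal.ofReal_rpow_of_nonneg (by positivity) (by norm_num)]
      congr 1
      rw [Real.rpow_two, div_pow, one_pow]
    simp_rw [this]
    rw [lint_sq a ha, ENNReal.ofReal_rpow_of_nonneg (by positivity) (by norm_num),
      Real.sqrt_eq_rpow]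
  simp_rw [e1]
  refine h.trans (le_of_eq ?_)
  rw [e2 s hs, e2 t ht, ← ENNReal.ofReal_mul (Real.sqrt_nonneg _),
    ← Real.sqrt_mul (by positivity)]
  congr 1
  rw [show Real.pi / s.im * (Real.pi / t.im) = Real.pi ^ 2 / (s.im * t.im) by field_simp,
    Real.sqrt_div (by positivity), Real.sqrt_sq Real.pi_pos.le]

end Pool.TRP.EV
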